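import Pool.Agent.P.MP_78b4c6_co.LvMat

set_option autoImplicit false

namespace Pool.Agent.Results.MP_78b4c6_co.LevelBound

theorem result (n t : ℕ) (hn : 0 < n) (A : Fin t → Matrix (Fin n) (Fin n) ℕ) (r : Fin t → ℕ)
    (h01 : ∀ k i j, A k i j = 0 ∨ A k i j = 1) (hdiag : ∀ k i, A k i i = 1)
    (hrow : ∀ k i, r k + 1 ≤ ∑ j, A k i j) (ρ : ℕ)
    (hρ : 8 * n ≤ ρ * (Finset.univ.filter fun k => ρ ≤ r k).card) :
    n < Matrix.trace (List.ofFn A).prod :=
  Pool.Agent.P.MP_78b4c6_co.Lv.level_bound hn A r h01 hdiag hrow ρ hρ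

/-- equal degrees: `t * r ≥ 8 n` suffices -/
theorem equal_degrees (n t r : ℕ) (hn : 0 < n) (A : Fin t → Matrix (Fin n) (Fin n) ℕ)
    (h01 : ∀ k i j, A k i j = 0 ∨ A k i j = 1) (hdiag : ∀ k i, A k i i = 1)
    (hrow : ∀ k i, r + 1 ≤ ∑ j, A k i j) (h : 8 * n ≤ r * t) :
    n < Matrix.trace (List.ofFn A).prod :=
  result n t hn A (fun _ => r) h01 hdiag hrow r (by simpa using h)

/-- arbitrary degrees: `∑ r k ≥ 8 n (1 + log n)` suffices -/
theorem sum_form (n t : ℕ) (hn : 0 < n) (A : Fin t → Matrix (Fin n) (Fin n) ℕ) (r : Fin t → ℕ)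
    (h01 : ∀ k i j, A k i j = 0 ∨ A k i j = 1) (hdiag : ∀ k i, A k i i = 1)
    (hrow : ∀ k i, r k + 1 ≤ ∑ j, A k i j)
    (h : 8 * n * (1 + Real.log n) ≤ ∑ k, (r k : ℝ)) :
    n < Matrix.trace (List.ofFn A).prod := by
  by_contra htr
  have hr : ∀ k, r k ≤ n := fun k => by
    have h1 := hrow k ⟨0, hn⟩
    have h2 := Finset.sum_le_card_nsmul Finset.univ (fun j => A k ⟨0, hn⟩ j) 1
      fun j _ => by rcases h01 k ⟨0, hn⟩ j with h | h <;> omega
    rw [Finset.card_univ, Fintype.card_fin, smul_eq_mul, mul_one] at h2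
    omega
  have e : ∑ k, (r k : ℝ) =
      ∑ i ∈ Finset.range n, ((Finset.univ.filter fun k => i + 1 ≤ r k).card : ℝ) := by
    simp only [Finset.card_filter, Nat.cast_sum]
    rw [Finset.sum_comm]
    refine Finset.sum_congr rfl fun k _ => ?_
    rw [← Nat.cast_sum, ← Finset.card_filter]
    congr 1
    rw [show (Finset.range n).filter (fun i => i + 1 ≤ r k) = Finset.range (r k) from ?_,
      Finset.card_range]
    ext i
    have := hr k
    simp only [Finset.mem_filter, Finset.mem_range]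
    omega
  have b : ∀ i ∈ Finset.range n, ((Finset.univ.filter fun k => i + 1 ≤ r k).card : ℝ) <
      8 * n * ((i + 1 : ℕ) : ℝ)⁻¹ := fun i _ => by
    have h1 := not_le.1 fun h => htr (result n t hn A r h01 hdiag hrow (i + 1) h)
    rw [← div_eq_mul_inv, lt_div_iff₀ (by positivity), mul_comm]
    exact_mod_cast h1
  have c := Finset.sum_lt_sum_of_nonempty (Finset.nonempty_range_iff.2 hn.ne') b
  rw [← e, ← Finset.mul_sum] at c
  have d := harmonic_le_one_add_log n
  rw [harmonic] at d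
  push_cast at c d
  have hn' : (0 : ℝ) ≤ 8 * n := by positivity
  linarith [mul_le_mul_of_nonneg_left d hn']

end Pool.Agent.Results.MP_78b4c6_co.LevelBound
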