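import Pool.Agent.P.MP_78b4c6_co.LvMono

set_option autoImplicit false

namespace Pool.Agent.Results.MP_78b4c6_co.MonotoneBound

theorem result (n t : ℕ) (hn : 0 < n) (A : Fin t → Matrix (Fin n) (Fin n) ℕ) (r : Fin t → ℕ)
    (h01 : ∀ k i j, A k i j = 0 ∨ A k i j = 1) (hdiag : ∀ k i, A k i i = 1)
    (hrow : ∀ k i, r k + 1 ≤ ∑ j, A k i j) (hmono : Monotone r ∨ Antitone r)
    (hsum : 28 * n ≤ ∑ k, r k) : n < Matrix.trace (List.ofFn A).prod :=
  Pool.Agent.P.MP_78b4c6_co.Lv.mono_bound hn A r h01 hdiag hrow hmono hsum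

end Pool.Agent.Results.MP_78b4c6_co.MonotoneBound
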